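import Pool.Agent.Hx88.AH.Defs
import Pool.Agent.Hx88.NS.Main
import Pool.Agent.Y129.Law

/-!
# Hodge classes on very general members of nodal families: comparison of the definitions
-/

set_option autoImplicit false
set_option linter.unusedSectionVars false

open CategoryTheory AlgebraicGeometry
open scoped TensorProduct

universe u

namespace Pool.Agent.Hx88.AH

open Pool.Agent.H914 Pool.Agent.H914.VarClass Pool.Agent.H914.VarClass.Obj
  Pool.Agent.H914.WeilCohomology Pool.Agent.H281R3.HT Pool.Agent.TH125.Gal Pool.Agent.N179.TL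
  Pool.Agent.N179.FG Pool.Agent.N179.FO Pool.Agent.W552 Pool.Agent.Hx88.NS

variable {k : Type u} [Field k] {𝒱 : VarClass k} {ops : CycleOps 𝒱}
  {W : WeilCohomology.{u, 0} ops} {Γ : Type} [Group Γ]

/-- the trivial character -/
abbrev one' (W : WeilCohomology.{u, 0} ops) (Γ : Type) [Group Γ] : Γ →* W.Kˣ := 1

/-- The conversion. -/
def toG (X : MVar W Γ) : GVar W Γ := ⟨X.X, X.act⟩

theorem mem_perp {K A : Type} [Field K] [Ring A] [Algebra K A] {tr : A →ₗ[K] K}
    {C : ℕ → A → Prop} {a : A} : a ∈ perp tr C ↔ ∀ j c, C j c → tr (a * c) = 0 := by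
  unfold perp
  simp only [Submodule.mem_iInf, LinearMap.mem_ker, LinearMap.comp_apply,
    LinearMap.mulRight_apply]
  constructor
  · intro h j c hc
    exact h c ⟨j, hc⟩
  · rintro h c ⟨j, hc⟩
    exact h j c hc

theorem isAlg_iff {X : 𝒱.Obj} {j : ℕ} {c : W.H X} : IsAlg W X j c ↔ c ∈ algClasses W X j :=
  Iff.rfl

theorem perp_eq (X : 𝒱.Obj) : perp (W.tr X) (IsAlg W X) = transcendental W X := by
  ext a
  rw [mem_perp]
  unfold transcendental orthCompl
  simp only [Submodule.mem_iInf, LinearMap.mem_ker, LinearMap.comp_apply,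
    LinearMap.mulRight_apply, Set.mem_iUnion]
  constructor
  · rintro h c ⟨j, hc⟩
    exact h j c hc
  · intro h j c hc
    exact h c ⟨j, hc⟩

theorem algSpan_eq (X : 𝒱.Obj) : Submodule.span W.K {c | ∃ j, IsAlg W X j c} = algSpan W X := by
  unfold algSpan
  congr 1
  ext c
  rw [Set.mem_iUnion]
  rfl

section

variable {X : MVar W Γ} {g : Γ}
  (h : Monodromy (W.gr X.X) X.X.dim (W.tr X.X) (IsAlg W X.X) X.act g)

include h

theorem isGaloisVar : IsGaloisVar (one' W Γ) (toG X) where
  gr_mem := h.gr_mem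
  tr_act g a := by
    rw [MonoidHom.one_apply, Units.val_one, one_pow, one_mul]
    exact h.tr_act g a
  cl_act g j c hc := by
    refine ⟨_, h.cl_act g j c hc, ?_⟩
    rw [MonoidHom.one_apply, Units.val_one, one_pow, one_smul]
    rfl
  cl_fix j c hc := by
    obtain ⟨Δ, hΔ, hfix⟩ := h.cl_fix j c hc
    refine ⟨Δ, hΔ, fun g hg => ?_⟩
    rw [MonoidHom.one_apply, Units.val_one, one_pow, one_smul]
    exact hfix g hg

theorem homNum' : HomEqNum W X.X := by
  apply Pool.Agent.Y129.homEqNum_of_algSpan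
  intro c hc hc'
  apply h.nondeg c
  · rw [perp_eq]; exact hc'
  · rw [algSpan_eq]; exact hc

theorem middleT : MiddleT (toG X) := by
  have h1 := h.middle
  rw [perp_eq] at h1
  exact h1

theorem irredT : IrredT (toG X) := by
  intro Δ hΔ U hU hst
  have h1 := h.irreducible Δ hΔ U (by rw [perp_eq]; exact hU) hst
  rw [perp_eq] at h1
  exact h1

theorem plVar : PLVar (toG X) g := by
  have h1 := h.picardLefschetz
  rw [perp_eq] at h1
  exact h1

end

theorem isProd_conv {A B C : MVar W Γ} (h : IsProd A B C) : IsProdVar (toG A) (toG B) (toG C) := by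
  obtain ⟨υ, h1⟩ := h
  exact IsProdVar.mk (A := toG A) (B := toG B) υ (fun g a => (h1 g).1 a) (fun g a => (h1 g).2 a)

theorem isPow_conv {X V : MVar W Γ} {n : ℕ} (h : IsPow X n V) : IsPower (toG X) n (toG V) := by
  induction h with
  | one => exact IsPower.one
  | succ h hp ih => exact IsPower.succ ih (isProd_conv hp)

theorem large_conv {X : MVar W Γ} {n : ℕ} (h : LargeOn X n) (h' : Even X.X.dim) :
    n < transRank W X.X := by
  have h1 := h h'
  rw [perp_eq] at h1
  exact h1

/-- The elements act trivially on the towers. -/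
theorem tower_triv {ι : Type} {X : ι → MVar W Γ} {o : ι} {S : Set ι} {Y : MVar W Γ}
    (h : Tower X o S Y) {g : Γ} (hg : ∀ j ∈ S, TrivAt (X j).act g) : TrivAt Y.act g := by
  induction h with
  | base => exact hg o rfl
  | step i n _ _ _ hV hY ih =>
    exact prod_triv (isProd_conv hY) ((isPow_conv hV).triv (hg i (Set.mem_insert _ _)))
      (ih fun j hj => hg j (Set.mem_insert_of_mem _ hj))

end Pool.Agent.Hx88.AH
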