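import Pool.Agent.Y121.AHS.Defs

/-!
# Hodge classes on very general members of nodal families: definitions
-/

set_option autoImplicit false

open CategoryTheory AlgebraicGeometry

universe u

namespace Pool.Agent.Hx88.AH

section Alg

variable {K : Type} [Field K] {A B B' : Type} [Ring A] [Algebra K A] [Ring B] [Algebra K B]
  [Ring B'] [Algebra K B'] {Γ : Type} [Group Γ]

/-- The actions of the group `Γ` on the algebra `A`. -/
abbrev Acts (K A Γ : Type) [Field K] [Ring A] [Algebra K A] [Group Γ] : Type := Γ →* (A ≃ₐ[K] A)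

/-- Every element `c` with `P j c` for some `j` is fixed by a subgroup of finite index. -/
def Fixes (P : ℕ → A → Prop) (ρ : Acts K A Γ) : Prop :=
  ∀ j c, P j c → ∃ Δ : Subgroup Γ, Δ.FiniteIndex ∧ ∀ g ∈ Δ, ρ g c = c

/-- The elements `a` with `tr (a * c) = 0` for all `c` with `C j c` for some `j`. -/
def perp (tr : A →ₗ[K] K) (C : ℕ → A → Prop) : Submodule K A :=
  ⨅ (c : A) (_ : ∃ j, C j c), LinearMap.ker (tr ∘ₗ LinearMap.mulRight K c)

/-- The element `g` acts trivially. -/
def TrivAt (ρ : Acts K A Γ) (g : Γ) : Prop := ∀ a, ρ g a = a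

/-- The element `a` is the image of an element `z` with `P j z`. -/
def Img {Z A : Type*} [AddCommGroup Z] [Ring A] (f : Z →+ A) (P : ℕ → Z → Prop) (j : ℕ) (a : A) :
    Prop := ∃ z, P j z ∧ f z = a

/-- The homomorphisms `f` and `f'` are equivariant. -/
def Comm (f : B →ₐ[K] A) (f' : B' →ₐ[K] A) (σ : Acts K B Γ) (σ' : Acts K B' Γ)
    (ρ : Acts K A Γ) : Prop :=
  ∀ g, (∀ b, ρ g (f b) = f (σ g b)) ∧ ∀ b, ρ g (f' b) = f' (σ' g b)

/-- If `d` is even then the dimension of the subspace `perp tr C` is larger than `n`. -/
def Large (tr : A →ₗ[K] K) (C : ℕ → A → Prop) (d n : ℕ) : Prop :=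
  Even d → n < Module.finrank K (perp tr C)

/-- The group `Γ` acts on the cohomology `A` of a variety of dimension `n` by automorphisms which
preserve the degrees and the trace and permute the classes of algebraic cycles, each of them with a
finite orbit; the intersection form on the span of these classes is not degenerate; and the
transcendental cohomology (the orthogonal complement of this span) is in the middle degree and
irreducible under all subgroups of finite index; and the element `g` acts on it by the formula of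
Picard and Lefschetz `t ↦ t + c tr(δ t) δ`, where `c` and the vanishing cycle `δ` are not zero. -/
structure Monodromy (gr : ℕ → Submodule K A) (n : ℕ) (tr : A →ₗ[K] K) (C : ℕ → A → Prop)
    (ρ : Acts K A Γ) (g : Γ) : Prop where
  gr_mem : ∀ g i, ∀ a ∈ gr i, ρ g a ∈ gr i
  tr_act : ∀ g a, tr (ρ g a) = tr a
  cl_act : ∀ g j c, C j c → C j (ρ g c)
  cl_fix : Fixes C ρ
  nondeg : ∀ x ∈ perp tr C, x ∈ Submodule.span K {c | ∃ j, C j c} → x = 0
  middle : perp tr C ≤ gr n
  irreducible : ∀ Δ : Subgroup Γ, Δ.FiniteIndex → ∀ U ≤ perp tr C,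
    (∀ g ∈ Δ, ∀ a ∈ U, ρ g a ∈ U) → U = ⊥ ∨ U = perp tr C
  picardLefschetz : ∃ δ ∈ perp tr C, δ ≠ 0 ∧ ∃ c : K, c ≠ 0 ∧
    ∀ t ∈ perp tr C, ρ g t = t + (c * tr (δ * t)) • δ

end Alg

open Pool.Agent.H914 Pool.Agent.H914.VarClass Pool.Agent.H914.VarClass.Obj
  Pool.Agent.H914.WeilCohomology Pool.Agent.Y121.AHS

variable {k : Type u} [Field k] {𝒱 : VarClass k} {ops : CycleOps 𝒱}

/-- A variety with an action of the group `Γ` on the cohomology (the member over the base point of a
family over a base with the fundamental group `Γ`). -/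
structure MVar (W : WeilCohomology.{u, 0} ops) (Γ : Type) [Group Γ] where
  /-- the variety -/
  X : 𝒱.Obj
  /-- the action -/
  act : Acts W.K (W.H X) Γ

/-- The classes of algebraic cycles: `IsAlg W X j c` means that `c` is the class of an algebraic cycle
of codimension `j` on `X`. -/
def IsAlg (W : WeilCohomology.{u, 0} ops) (X : 𝒱.Obj) : ℕ → W.H X → Prop := Img (W.cl X) X.IsCyc

variable {W : WeilCohomology.{u, 0} ops} {Γ : Type} [Group Γ]

/-- If the dimension of `X` is even then the dimension of its transcendental cohomology is larger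
than `n`. -/
def LargeOn (X : MVar W Γ) (n : ℕ) : Prop := Large (W.tr X.X) (IsAlg W X.X) X.X.dim n

/-- `C` is the product of `A` and `B`, with the action on the cohomology which is compatible with
the projections. -/
inductive IsProd (A B : MVar W Γ) : MVar W Γ → Prop
  | mk (υ : Acts W.K (W.H (A.X.prod B.X)) Γ) :
      Comm (W.map (fst A.X B.X)) (W.map (snd A.X B.X)) A.act B.act υ → IsProd A B ⟨_, υ⟩

/-- `V` is the product `X × (X × ( ⋯ × X))` of `n + 1` copies of `X`. -/
inductive IsPow (X : MVar W Γ) : ℕ → MVar W Γ → Prop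
  | one : IsPow X 0 X
  | succ {n : ℕ} {V V' : MVar W Γ} : IsPow X n V → IsProd X V V' → IsPow X (n + 1) V'

/-- The varieties `Y = X_1^(n_1) × (X_2^(n_2) × ( ⋯ × Z))`, where `Z = X o` and the `X_i` are pairwise
different other members of the family `X` (`S` is the set of the indices which are used), and `n_i`
is less than the dimension of the transcendental cohomology of `X_i` if the dimension of `X_i` is
even. -/
inductive Tower {ι : Type} (X : ι → MVar W Γ) (o : ι) : Set ι → MVar W Γ → Prop
  | base : Tower X o {o} (X o)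
  | step {S : Set ι} {Y V Y' : MVar W Γ} (i : ι) (n : ℕ) : Tower X o S Y → i ∉ S →
      LargeOn (X i) (n + 1) → IsPow (X i) n V → IsProd V Y Y' → Tower X o (insert i S) Y'

/-- For every `i ≠ o` there is an element `g` of `Γ` (a loop around the discriminant divisor of the
family of `X i`) with which the variety `X i` satisfies the conditions `Monodromy` and which acts
trivially on the cohomology of all other `X j` (also of `X o`). -/
def NodalMonodromy {ι : Type} (X : ι → MVar W Γ) (o : ι) : Prop :=
  ∀ i ≠ o, ∃ g : Γ, Monodromy (W.gr (X i).X) (X i).X.dim (W.tr (X i).X) (IsAlg W (X i).X)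
    (X i).act g ∧ ∀ j ≠ i, TrivAt (X j).act g

/-- The absolute Hodge conjecture for `X` and the conjugates and comparison isomorphisms in `D`: all
Hodge classes on `X` are absolutely Hodge classes for `D`. -/
def AllAbs {T : HodgeTheory ops} (D : Conjugates T) (X : 𝒱.Obj) : Prop :=
  ∀ j c, IsHodge T X j c → IsAbsHodge D X j c

end Pool.Agent.Hx88.AH
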