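import Pool.Agent.TH125.Gal.Pub

/-!
# Roots of unity and the field of rational numbers
-/

set_option autoImplicit false

namespace Pool.Agent.Hx88.AH

open Pool.Agent.TH125.Gal

/-- A field all of whose elements are rational numbers contains only finitely many `ζ + ζ⁻¹`. -/
theorem fewRoots_of_rat {K : Type} [Field K] [CharZero K] (hK : ∀ r : K, ∃ q : ℚ, (q : K) = r) :
    FewRoots K := by
  have hsub : {y : K | ∃ ζ : AlgebraicClosure K, (∃ m ≥ 1, ζ ^ m = 1) ∧
      algebraMap K (AlgebraicClosure K) y = ζ + ζ⁻¹} ⊆ (fun n : ℤ => (n : K)) '' (Set.Icc (-2) 2) := by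
    rintro y ⟨ζ, ⟨m, hm, hζ⟩, hy⟩
    obtain ⟨q, rfl⟩ := hK y
    have hζ0 : ζ ≠ 0 := by
      rintro rfl
      rw [zero_pow (by omega)] at hζ
      exact zero_ne_one hζ
    have hi : IsIntegral ℤ ζ := by
      refine ⟨Polynomial.X ^ m - 1, Polynomial.monic_X_pow_sub_C 1 (by omega), ?_⟩
      rw [Polynomial.eval₂_sub, Polynomial.eval₂_X_pow, Polynomial.eval₂_one, hζ, sub_self]
    have hi' : IsIntegral ℤ ζ⁻¹ := by
      refine ⟨Polynomial.X ^ m - 1, Polynomial.monic_X_pow_sub_C 1 (by omega), ?_⟩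
      rw [Polynomial.eval₂_sub, Polynomial.eval₂_X_pow, Polynomial.eval₂_one, inv_pow, hζ, inv_one,
        sub_self]
    have h1 : IsIntegral ℤ (algebraMap ℚ (AlgebraicClosure K) q) := by
      have h2 : algebraMap ℚ (AlgebraicClosure K) q = ζ + ζ⁻¹ := by
        rw [← hy, eq_ratCast, map_ratCast]
      rw [h2]
      exact hi.add hi'
    have h2 : IsIntegral ℤ q :=
      (isIntegral_algebraMap_iff (algebraMap ℚ (AlgebraicClosure K)).injective).1 h1
    obtain ⟨n, hn⟩ := IsIntegrallyClosed.isIntegral_iff.1 h2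
    have hn' : (n : ℚ) = q := by rw [← hn, eq_intCast]
    -- an embedding into the complex numbers
    let F := IntermediateField.adjoin ℚ {ζ}
    have : FiniteDimensional ℚ F :=
      IntermediateField.adjoin.finiteDimensional (hi.tower_top)
    let ζF : F := ⟨ζ, IntermediateField.mem_adjoin_simple_self ℚ ζ⟩
    let σ : F →ₐ[ℚ] ℂ := IsAlgClosed.lift
    have hF : ζF + ζF⁻¹ = (q : F) := by
      apply Subtype.ext
      change ζ + ζ⁻¹ = ((q : F) : AlgebraicClosure K)
      rw [← hy, map_ratCast]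
      simp
    have h3 : σ ζF + (σ ζF)⁻¹ = (q : ℂ) := by
      rw [← map_inv₀, ← map_add, hF, map_ratCast]
    have h4 : σ ζF ^ m = 1 := by
      rw [← map_pow]
      have : ζF ^ m = 1 := Subtype.ext hζ
      rw [this, map_one]
    have h5 : ‖σ ζF‖ = 1 := by
      have h6 := congrArg norm h4
      rw [norm_pow, norm_one] at h6
      exact (pow_eq_one_iff_of_nonneg (norm_nonneg _) (by omega)).1 h6
    have h6 : ‖(q : ℂ)‖ ≤ 2 := by
      rw [← h3]
      calc ‖σ ζF + (σ ζF)⁻¹‖ ≤ ‖σ ζF‖ + ‖(σ ζF)⁻¹‖ := norm_add_le _ _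
        _ = 2 := by rw [norm_inv, h5]; norm_num
    have h7 : |(n : ℝ)| ≤ 2 := by
      rw [← hn'] at h6
      simpa using h6
    refine ⟨n, ?_, ?_⟩
    · rw [abs_le] at h7
      exact ⟨by exact_mod_cast h7.1, by exact_mod_cast h7.2⟩
    · beta_reduce
      rw [← hn']
      simp
  exact Set.Finite.subset (Set.toFinite _) hsub

end Pool.Agent.Hx88.AH
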