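import Pool.Agent.Hx88.AH.Step
import Pool.Agent.Hx88.AH.Few
import Pool.Agent.Hx88.AH.Defs
import Pool.Agent.Y121.AHS.Conv
import Pool.Agent.Y121.AH.HR
import Pool.Agent.Y121.AH.Coef

/-!
# The dimensions of the spaces of the Hodge classes and of the absolutely Hodge classes
-/

set_option autoImplicit false
set_option linter.unusedSectionVars false

open CategoryTheory AlgebraicGeometry
open scoped TensorProduct

universe u v w

namespace Pool.Agent.Hx88.AH

open Pool.Agent.H914 Pool.Agent.H914.VarClass Pool.Agent.H914.VarClass.Obj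
  Pool.Agent.H914.WeilCohomology Pool.Agent.H281R3.HT Pool.Agent.TH125.Gal Pool.Agent.N179.TL
  Pool.Agent.N179.FG Pool.Agent.N179.FO Pool.Agent.W552 Pool.Agent.Hx88.NS
open Pool.Agent.Y133.Half (Sys ClassPred)
open Module (finrank)

variable {k : Type u} [Field k] {𝒱 : VarClass k} {ops : CycleOps 𝒱}

section general

variable {W : WeilCohomology.{u, v} ops} {Γ : Type w} [Group Γ] {V Y : GVar W Γ}

/-- **One step for a system of classes.** -/
theorem finrank_step (S : Sys W)
    (hnd : ∀ x ∈ S.C V.X, (∀ y ∈ S.C V.X, W.tr V.X (x * y) = 0) → x = 0)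
    {A : Set (W.H V.X)} {N : ℕ} {m : Fin N → W.H V.X} (hm : ∀ l, m l ∈ S.C V.X)
    (hli : LinearIndependent W.K m) (hA : A ⊆ Submodule.span W.K (Set.range m))
    (hdec : ∀ c ∈ S.C (V.X.prod Y.X), c ∈ prods A Y) :
    finrank W.K (S.C (V.X.prod Y.X)) = N * finrank W.K (S.C Y.X) := by
  classical
  obtain ⟨u, hu, hum⟩ := exists_dual hnd hm hli
  let e : S.C (V.X.prod Y.X) ≃ₗ[W.K] (Fin N → S.C Y.X) :=
    { toFun := fun c l => ⟨crd V Y (u l) c, S.push _ (S.mul (S.map _ (hu l)) c.2)⟩
      map_add' := fun x y => by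
        funext l
        exact Subtype.ext (map_add _ _ _)
      map_smul' := fun r x => by
        funext l
        exact Subtype.ext (map_smul _ _ _)
      invFun := fun x => ⟨∑ l, W.map (fst V.X Y.X) (m l) * W.map (snd V.X Y.X) (x l),
        Submodule.sum_mem _ fun l _ => S.mul (S.map _ (hm l)) (S.map _ (x l).2)⟩
      left_inv := fun c => Subtype.ext (expand_prods hA hum (hdec c c.2)).symm
      right_inv := fun x => by
        funext l
        exact Subtype.ext (crd_sum hum (fun l => (x l : W.H Y.X)) l) }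
  rw [e.finrank_eq, Module.finrank_pi_fintype, Finset.sum_const, Finset.card_univ,
    Fintype.card_fin, smul_eq_mul]

end general

section

open Pool.Agent.Y121.AHS Pool.Agent.Y121

variable {T : HodgeTheory ops}

/-- the system of the Hodge classes -/
noncomputable def hSys (T : HodgeTheory ops) : Sys T.W := AH.hodgeSys (toH T)

/-- the system of the absolutely Hodge classes -/
noncomputable def aSys (D : Conjugates T) : Sys T.W := AH.absSys (toD D)

/-- the Hodge classes -/
noncomputable def hPred (T : HodgeTheory ops) : ClassPred T.W := AH.hodgePred (toH T)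

/-- the absolutely Hodge classes -/
noncomputable def aPred (D : Conjugates T) : ClassPred T.W := AH.absPred (toD D)

theorem hPred_iff {X : 𝒱.Obj} {j : ℕ} {c : T.W.H X} : (hPred T).P X j c ↔ IsHodge T X j c :=
  Iff.rfl

theorem aPred_iff {D : Conjugates T} {X : 𝒱.Obj} {j : ℕ} {c : T.W.H X} :
    (aPred D).P X j c ↔ IsAbsHodge D X j c := Iff.rfl

theorem hodgeDim_sys (X : 𝒱.Obj) : hodgeDim T X = finrank T.W.K ((hSys T).C X) := rfl

theorem absDim_sys (D : Conjugates T) (X : 𝒱.Obj) :
    absDim D X = finrank T.W.K ((aSys D).C X) := rfl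

theorem alg_hodge {X : 𝒱.Obj} {c : T.W.H X} (hc : c ∈ algSpan T.W X) : c ∈ (hSys T).C X :=
  (ClassPred.alg_le (Q := hPred T) : algSpan T.W X ≤ _) hc

theorem alg_abs (D : Conjugates T) {X : 𝒱.Obj} {c : T.W.H X} (hc : c ∈ algSpan T.W X) :
    c ∈ (aSys D).C X :=
  (ClassPred.alg_le (Q := aPred D) : algSpan T.W X ≤ _) hc

theorem abs_le (D : Conjugates T) (X : 𝒱.Obj) : (aSys D).C X ≤ (hSys T).C X :=
  AH.abs_le_hodge (toD D) X

theorem hSys_nondeg {X : 𝒱.Obj} (x : T.W.H X) (hx : x ∈ (hSys T).C X)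
    (h : ∀ y ∈ (hSys T).C X, T.W.tr X (x * y) = 0) : x = 0 := AH.hodge_nondeg hx h

theorem aSys_nondeg (D : Conjugates T) {X : 𝒱.Obj} (x : T.W.H X) (hx : x ∈ (aSys D).C X)
    (h : ∀ y ∈ (aSys D).C X, T.W.tr X (x * y) = 0) : x = 0 := AH.abs_nondeg (toD D) X x hx h

/-- All Hodge classes are absolutely Hodge classes if and only if the dimensions agree. -/
theorem allAbs_iff (D : Conjugates T) (X : 𝒱.Obj) :
    AllAbs D X ↔ absDim D X = hodgeDim T X := by
  rw [absDim_sys, hodgeDim_sys]
  constructor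
  · intro h
    have h1 : (aSys D).C X = (hSys T).C X := by
      apply le_antisymm (abs_le D X)
      refine Submodule.span_mono ?_
      rintro c ⟨j, hj⟩
      exact ⟨j, aPred_iff.2 (h j c hj)⟩
    rw [h1]
  · intro h j c hc
    have h1 : (aSys D).C X = (hSys T).C X := Submodule.eq_of_le_of_finrank_eq (abs_le D X) h
    have h2 : c ∈ (hSys T).C X := ClassPred.sp_of (Q := hPred T) (j := j) hc
    rw [← h1] at h2
    have h3 := ClassPred.sp_proj (Q := aPred D) h2 j
    rw [proj_same _ hc.1] at h3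
    exact aPred_iff.1 h3

end

end Pool.Agent.Hx88.AH
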