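import Pool.Agent.Hx88.AH.Dims
import Pool.Agent.Hx88.AH.Conv

/-!
# Hodge classes on the products of powers of very general members of nodal families and arbitrary
# varieties
-/

set_option autoImplicit false
set_option linter.unusedSectionVars false

open CategoryTheory AlgebraicGeometry
open scoped TensorProduct

universe u v w

namespace Pool.Agent.Hx88.AH

open Pool.Agent.H914 Pool.Agent.H914.VarClass Pool.Agent.H914.VarClass.Obj
  Pool.Agent.H914.WeilCohomology Pool.Agent.H281R3.HT Pool.Agent.TH125.Gal Pool.Agent.N179.TL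
  Pool.Agent.N179.FG Pool.Agent.N179.FO Pool.Agent.W552 Pool.Agent.Hx88.NS
open Pool.Agent.Y133.Half (Sys ClassPred)
open Pool.Agent.Y121.AHS Pool.Agent.Y121
open Module (finrank)

variable {k : Type u} [Field k] {𝒱 : VarClass k} {ops : CycleOps 𝒱} {T : HodgeTheory ops}
  {Γ : Type} [Group Γ] {ι : Type} {X : ι → MVar T.W Γ} {o : ι}

theorem base_mem {S : Set ι} {Y : MVar T.W Γ} (h : Tower X o S Y) : o ∈ S := by
  induction h with
  | base => rfl
  | step i n _ _ _ _ _ ih => exact Set.mem_insert_of_mem _ ih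

/-- **The dimensions.** -/
theorem tower_dims (h : NodalMonodromy X o)
    (hH : ∀ S Y, Tower X o S Y → Fixes (IsHodge T Y.X) Y.act)
    {S : Set ι} {Y : MVar T.W Γ} (hY : Tower X o S Y) :
    ∃ N : ℕ, 0 < N ∧ hodgeDim T Y.X = N * hodgeDim T (X o).X ∧
      ∀ D : Conjugates T, absDim D Y.X = N * absDim D (X o).X := by
  induction hY with
  | base => exact ⟨1, Nat.one_pos, (one_mul _).symm, fun D => (one_mul _).symm⟩
  | @step S Y V Y' i n hT hi hn hV hP ih =>
    obtain ⟨N', hN', ih1, ih2⟩ := ih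
    have hio : i ≠ o := fun h' => hi (h' ▸ base_mem hT)
    obtain ⟨g, hM, hj⟩ := h i hio
    have hPL := plVar hM
    have hone : (1 : T.W.H (X i).X) ≠ 0 := by
      obtain ⟨δ, hδ, hδ0, -⟩ := hM.picardLefschetz
      intro h3
      apply hδ0
      rw [← one_mul δ, h3, zero_mul]
    have hK : Even (X i).X.dim → FewRoots T.W.K ∧ n + 1 < transRank T.W (X i).X :=
      fun h' => ⟨fewRoots_of_rat T.rat, large_conv hn h'⟩
    have hYg : TrivAct Y.act g := tower_triv hT fun j hjS => hj j fun h' => hi (h' ▸ hjS)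
    obtain ⟨A, hA', hA, hs⟩ := (isPow_conv hV).splits (isGaloisVar hM) (homNum' hM) (middleT hM)
      (irredT hM) hPL rfl hK
    obtain ⟨a, ha, ha0⟩ := (isPow_conv hV).pt (homNum' hM) hone
    have hHY := hH _ _ (Tower.step i n hT hi hn hV hP)
    obtain ⟨υ, h12⟩ := hP
    have h1 : Equivariant (A := (⟨(toG V).X.prod (toG Y).X, υ⟩ : GVar T.W Γ)) (B := toG V)
        (fst (toG V).X (toG Y).X) := fun g a => (h12 g).1 a
    have h2 : Equivariant (A := (⟨(toG V).X.prod (toG Y).X, υ⟩ : GVar T.W Γ)) (B := toG Y)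
        (snd (toG V).X (toG Y).X) := fun g a => (h12 g).2 a
    obtain ⟨N, m, hm, hli, hAm⟩ := exists_basis A
    have hdec : ∀ c ∈ (hSys T).C ((toG V).X.prod (toG Y).X), c ∈ prods A (toG Y) := by
      intro c hc
      refine (Submodule.span_le (p := prods A (toG Y))).2 ?_ hc
      rintro c ⟨j, hj⟩
      obtain ⟨Δ, hΔ, hfix⟩ := hHY j c hj
      refine mem_prods (χ := one' T.W Γ) h1 h2 (hs _ (lin (toG Y)) (lin_one hYg)) (j := j) hΔ
        fun g hg => ?_
      rw [MonoidHom.one_apply, Units.val_one, one_pow, one_smul]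
      exact hfix g hg
    have hH1 : hodgeDim T (V.X.prod Y.X) = N * hodgeDim T Y.X := by
      rw [hodgeDim_sys, hodgeDim_sys]
      exact finrank_step (V := toG V) (Y := toG Y) (hSys T) hSys_nondeg
        (fun l => alg_hodge (hA' (hm l))) hli hAm hdec
    have hA1 : ∀ D : Conjugates T, absDim D (V.X.prod Y.X) = N * absDim D Y.X := by
      intro D
      rw [absDim_sys, absDim_sys]
      exact finrank_step (V := toG V) (Y := toG Y) (aSys D) (aSys_nondeg D)
        (fun l => alg_abs D (hA' (hm l))) hli hAm fun c hc => hdec c (abs_le D _ hc)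
    rcases Nat.eq_zero_or_pos N with hN | hN
    · -- the cohomology of `Y` is zero
      subst hN
      rw [zero_mul] at hH1
      have h3 : (hSys T).C (V.X.prod Y.X) = ⊥ := by
        rw [hodgeDim_sys] at hH1
        exact Submodule.finrank_eq_zero.1 hH1
      have h4 : (1 : T.W.H (V.X.prod Y.X)) = 0 := by
        have h5 := (hSys T).one (V.X.prod Y.X)
        rw [h3] at h5
        exact (Submodule.mem_bot _).1 h5
      have h5 : (1 : T.W.H Y.X) = 0 := by
        refine snd_inj (V := toG V) (Y := toG Y) ha0 ?_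
        change (T.W.map (snd V.X Y.X)) (1 : T.W.H Y.X) = 0
        rw [map_one, h4]
      have h6 : hodgeDim T Y.X = 0 := by
        rw [hodgeDim_sys, Submodule.finrank_eq_zero, eq_bot_iff]
        intro x _
        rw [Submodule.mem_bot, ← one_mul x]
        change (1 : T.W.H Y.X) * x = 0
        rw [h5, zero_mul]
      refine ⟨N', hN', ?_, fun D => ?_⟩
      · change hodgeDim T (V.X.prod Y.X) = _
        rw [hH1, ← ih1, h6]
      · change absDim D (V.X.prod Y.X) = _
        rw [hA1, zero_mul, ← ih2]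
        symm
        rw [absDim_sys, Submodule.finrank_eq_zero, eq_bot_iff]
        intro x _
        rw [Submodule.mem_bot, ← one_mul x]
        change (1 : T.W.H Y.X) * x = 0
        rw [h5, zero_mul]
    · refine ⟨N * N', Nat.mul_pos hN hN', ?_, fun D => ?_⟩
      · change hodgeDim T (V.X.prod Y.X) = _
        rw [hH1, ih1, mul_assoc]
      · change absDim D (V.X.prod Y.X) = _
        rw [hA1, ih2, mul_assoc]

/-- **The absolute Hodge conjecture.** -/
theorem tower_abs (h : NodalMonodromy X o)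
    (hH : ∀ S Y, Tower X o S Y → Fixes (IsHodge T Y.X) Y.act)
    {S : Set ι} {Y : MVar T.W Γ} (hY : Tower X o S Y) (D : Conjugates T) :
    AllAbs D Y.X ↔ AllAbs D (X o).X := by
  obtain ⟨N, hN, h1, h2⟩ := tower_dims h hH hY
  rw [allAbs_iff, allAbs_iff, h1, h2 D]
  exact ⟨fun h3 => Nat.eq_of_mul_eq_mul_left hN h3, fun h3 => by rw [h3]⟩

end Pool.Agent.Hx88.AH
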