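import Pool.Agent.Hx88.NS.Pow

/-!
# The decomposition of classes on a product, without the factor of the coefficients
-/

set_option autoImplicit false
set_option linter.unusedSectionVars false

open CategoryTheory AlgebraicGeometry
open scoped TensorProduct

universe u v w

namespace Pool.Agent.Hx88.AH

open Pool.Agent.H914 Pool.Agent.H914.VarClass Pool.Agent.H914.VarClass.Obj
  Pool.Agent.H914.WeilCohomology Pool.Agent.H281R3.HT Pool.Agent.TH125.Gal Pool.Agent.N179.TL
  Pool.Agent.N179.FG Pool.Agent.N179.FO Pool.Agent.W552 Pool.Agent.Hx88.NS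

variable {k : Type u} [Field k] {𝒱 : VarClass k} {ops : CycleOps 𝒱}
  {W : WeilCohomology.{u, v} ops} {Γ : Type w} [Group Γ] {χ : Γ →* W.Kˣ}

/-- the action by linear maps -/
noncomputable def lin (Y : GVar W Γ) : Γ →* (W.H Y.X →ₗ[W.K] W.H Y.X) where
  toFun g := (Y.act g).toLinearMap
  map_one' := by
    rw [map_one]
    rfl
  map_mul' g h := by
    rw [map_mul]
    rfl

theorem lin_apply (Y : GVar W Γ) (g : Γ) (y : W.H Y.X) : lin Y g y = Y.act g y := rfl

theorem lin_one {Y : GVar W Γ} {g : Γ} (hY : TrivAct Y.act g) : lin Y g = 1 :=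
  LinearMap.ext fun y => hY y

section

variable {V Y : GVar W Γ} {υ : Γ →* (W.H (V.X.prod Y.X) ≃ₐ[W.K] W.H (V.X.prod Y.X))}

/-- the products of elements of `A` and arbitrary elements -/
noncomputable def prods (A : Set (W.H V.X)) (Y : GVar W Γ) : Submodule W.K (W.H (V.X.prod Y.X)) :=
  Submodule.span W.K {x | ∃ m ∈ A, ∃ y : W.H Y.X,
    x = W.map (fst V.X Y.X) m * W.map (snd V.X Y.X) y}

/-- **The semi-invariant classes on the product.** -/
theorem mem_prods (h1 : Intertwines (W.map (fst V.X Y.X)) V.act υ)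
    (h2 : Intertwines (W.map (snd V.X Y.X)) Y.act υ) {A : Set (W.H V.X)}
    (hs : Splits χ V A (lin Y)) {c : W.H (V.X.prod Y.X)} {j : ℕ} {Δ : Subgroup Γ}
    (hΔ : Δ.FiniteIndex) (hc : ∀ g ∈ Δ, υ g c = (χ g : W.K) ^ j • c) : c ∈ prods A Y := by
  have h3 : ∀ g, (TensorProduct.map (V.act g).toLinearMap (lin Y g))
      ((kEquiv W V.X Y.X).symm c) = (kEquiv W V.X Y.X).symm (υ g c) := by
    intro g
    refine kun_ext (L := fun c => (TensorProduct.map (V.act g).toLinearMap (lin Y g))
      ((kEquiv W V.X Y.X).symm c)) (L' := fun c => (kEquiv W V.X Y.X).symm (υ g c))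
      (fun a b => by rw [map_add, map_add]) (fun a b => by rw [map_add, map_add])
      (fun a y => ?_) c
    have h4 : υ g (W.map (fst V.X Y.X) a) = W.map (fst V.X Y.X) (V.act g a) := h1 g a
    have h5 : υ g (W.map (snd V.X Y.X) y) = W.map (snd V.X Y.X) (Y.act g y) := h2 g y
    rw [kEquiv_symm, TensorProduct.map_tmul, map_mul, h4, h5, kEquiv_symm]
    rfl
  have h4 := hs ((kEquiv W V.X Y.X).symm c) j Δ hΔ fun g hg => by
    rw [h3, hc g hg, map_smul]
  have key : ∀ d ∈ Submodule.span W.K {x : W.H V.X ⊗[W.K] W.H Y.X | ∃ m ∈ A, ∃ w, x = m ⊗ₜ[W.K] w},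
      kEquiv W V.X Y.X d ∈ prods A Y := by
    intro d hd
    induction hd using Submodule.span_induction with
    | mem x hx =>
      obtain ⟨m, hm, w, rfl⟩ := hx
      exact Submodule.subset_span ⟨m, hm, w, kEquiv_tmul _ _ _ _⟩
    | zero => rw [map_zero]; exact Submodule.zero_mem _
    | add x y _ _ hx hy => rw [map_add]; exact Submodule.add_mem _ hx hy
    | smul q x _ hx => rw [map_smul]; exact Submodule.smul_mem _ _ hx
  have h5 := key _ h4
  rwa [LinearEquiv.apply_symm_apply] at h5

/-- the coordinate of a class on the product with respect to a class on the first factor -/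
noncomputable def crd (V Y : GVar W Γ) (u : W.H V.X) :
    W.H (V.X.prod Y.X) →ₗ[W.K] W.H Y.X :=
  W.push (snd V.X Y.X) ∘ₗ LinearMap.mulLeft W.K (W.map (fst V.X Y.X) u)

theorem crd_apply (u : W.H V.X) (c : W.H (V.X.prod Y.X)) :
    crd V Y u c = W.push (snd V.X Y.X) (W.map (fst V.X Y.X) u * c) := rfl

theorem crd_mul (u a : W.H V.X) (y : W.H Y.X) :
    crd V Y u (W.map (fst V.X Y.X) a * W.map (snd V.X Y.X) y) = W.tr V.X (u * a) • y := by
  rw [crd_apply, ← mul_assoc, ← map_mul, W.push_snd]

/-- The pull-back to the product is injective. -/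
theorem snd_inj {a : W.H V.X} (ha : W.tr V.X a ≠ 0) {y : W.H Y.X}
    (hy : W.map (snd V.X Y.X) y = 0) : y = 0 := by
  have h1 := crd_mul (V := V) (Y := Y) a 1 y
  rw [map_one, one_mul, hy, map_zero, mul_one] at h1
  exact (smul_eq_zero.1 h1.symm).resolve_left ha

/-- **The expansion.** -/
theorem expand_prods {A : Set (W.H V.X)} {N : ℕ} {m u : Fin N → W.H V.X}
    (hA : A ⊆ Submodule.span W.K (Set.range m))
    (hu : ∀ l l', W.tr V.X (u l * m l') = if l' = l then 1 else 0) {c : W.H (V.X.prod Y.X)}
    (hc : c ∈ prods A Y) :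
    c = ∑ l, W.map (fst V.X Y.X) (m l) * W.map (snd V.X Y.X) (crd V Y (u l) c) := by
  induction hc using Submodule.span_induction with
  | mem x hx =>
    obtain ⟨a, ha, y, rfl⟩ := hx
    obtain ⟨r, hr⟩ := (Submodule.mem_span_range_iff_exists_fun W.K).1 (hA ha)
    have h3 : ∀ l, W.tr V.X (u l * a) = r l := by
      intro l
      rw [← hr, Finset.mul_sum, map_sum, Finset.sum_eq_single l]
      · rw [mul_smul_comm, map_smul, hu, if_pos rfl, smul_eq_mul, mul_one]
      · intro l' _ hl
        rw [mul_smul_comm, map_smul, hu, if_neg hl, smul_zero]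
      · intro h
        exact absurd (Finset.mem_univ _) h
    have h4 : W.map (fst V.X Y.X) a = ∑ l, r l • W.map (fst V.X Y.X) (m l) := by
      rw [← hr, map_sum]
      exact Finset.sum_congr rfl fun l _ => map_smul _ _ _
    conv_lhs => rw [h4, Finset.sum_mul]
    refine Finset.sum_congr rfl fun l _ => ?_
    rw [crd_mul, h3, map_smul, mul_smul_comm, smul_mul_assoc]
  | zero => simp
  | add x y _ _ hx hy =>
    conv_lhs => rw [hx, hy, ← Finset.sum_add_distrib]
    refine Finset.sum_congr rfl fun l _ => ?_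
    rw [map_add, map_add, mul_add]
  | smul q x _ hx =>
    conv_lhs => rw [hx, Finset.smul_sum]
    refine Finset.sum_congr rfl fun l _ => ?_
    rw [map_smul, map_smul, mul_smul_comm]

theorem crd_sum {N : ℕ} {m u : Fin N → W.H V.X}
    (hu : ∀ l l', W.tr V.X (u l * m l') = if l' = l then 1 else 0) (x : Fin N → W.H Y.X)
    (l : Fin N) :
    crd V Y (u l) (∑ l', W.map (fst V.X Y.X) (m l') * W.map (snd V.X Y.X) (x l')) = x l := by
  rw [map_sum, Finset.sum_eq_single l]
  · rw [crd_mul, hu, if_pos rfl, one_smul]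
  · intro l' _ hl
    rw [crd_mul, hu, if_neg hl, zero_smul]
  · intro h
    exact absurd (Finset.mem_univ _) h

/-- A dual basis in a subspace on which the intersection form is not degenerate. -/
theorem exists_dual {X : 𝒱.Obj} {C : Submodule W.K (W.H X)}
    (hnd : ∀ x ∈ C, (∀ y ∈ C, W.tr X (x * y) = 0) → x = 0) {N : ℕ} {m : Fin N → W.H X}
    (hm : ∀ l, m l ∈ C) (hli : LinearIndependent W.K m) :
    ∃ u : Fin N → W.H X, (∀ l, u l ∈ C) ∧
      ∀ l l', W.tr X (u l * m l') = if l' = l then 1 else 0 := by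
  classical
  let B : C →ₗ[W.K] Module.Dual W.K C :=
    { toFun := fun x => (W.tr X ∘ₗ LinearMap.mulLeft W.K (x : W.H X)) ∘ₗ C.subtype
      map_add' := fun x y => by
        apply LinearMap.ext
        intro z
        change W.tr X (((x + y : C) : W.H X) * z) = W.tr X ((x : W.H X) * z) + W.tr X ((y : W.H X) * z)
        rw [Submodule.coe_add, add_mul, map_add]
      map_smul' := fun r x => by
        apply LinearMap.ext
        intro z
        change W.tr X (((r • x : C) : W.H X) * z) = r • W.tr X ((x : W.H X) * z)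
        rw [Submodule.coe_smul, smul_mul_assoc, map_smul] }
  have hinj : Function.Injective B := (injective_iff_map_eq_zero _).2 fun x hx =>
    Subtype.ext (hnd x x.2 fun y hy => LinearMap.congr_fun hx ⟨y, hy⟩)
  have hsurj : Function.Surjective B :=
    (LinearMap.injective_iff_surjective_of_finrank_eq_finrank
      (Subspace.dual_finrank_eq).symm).1 hinj
  have hli' : LinearIndependent W.K fun l => (⟨m l, hm l⟩ : C) := by
    apply LinearIndependent.of_comp C.subtype
    exact hli
  have hex : ∀ l, ∃ φ : Module.Dual W.K C, ∀ l', φ ⟨m l', hm l'⟩ = if l' = l then 1 else 0 := by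
    intro l
    let Bs := Module.Basis.extend (hli'.linearIndepOn_id)
    have hmem : ∀ l', (⟨m l', hm l'⟩ : C) ∈ (hli'.linearIndepOn_id).extend (Set.subset_univ _) :=
      fun l' => Module.Basis.subset_extend (hli'.linearIndepOn_id) ⟨l', rfl⟩
    refine ⟨Bs.coord ⟨_, hmem l⟩, fun l' => ?_⟩
    have h1 : (⟨m l', hm l'⟩ : C) = Bs ⟨_, hmem l'⟩ :=
      (Module.Basis.extend_apply_self (hli'.linearIndepOn_id) ⟨_, hmem l'⟩).symm
    rw [h1, Module.Basis.coord_apply, Module.Basis.repr_self, Finsupp.single_apply]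
    congr 1
    apply propext
    constructor
    · intro h
      exact hli'.injective (congrArg Subtype.val h)
    · rintro rfl
      rfl
  choose φ hφ using hex
  choose x hx using fun l => hsurj (φ l)
  exact ⟨fun l => x l, fun l => (x l).2, fun l l' => by
    have h1 := LinearMap.congr_fun (hx l) ⟨m l', hm l'⟩
    rw [hφ l l'] at h1
    exact h1⟩

end

/-- A finite family of linearly independent elements with the same span. -/
theorem exists_basis {X : 𝒱.Obj} (A : Set (W.H X)) :
    ∃ (N : ℕ) (m : Fin N → W.H X), (∀ l, m l ∈ A) ∧ LinearIndependent W.K m ∧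
      A ⊆ Submodule.span W.K (Set.range m) := by
  classical
  obtain ⟨S, hSA, hSspan, hSli⟩ := exists_linearIndependent W.K A
  have hfin : S.Finite := hSli.setFinite
  have := hfin.fintype
  let eS := Fintype.equivFin S
  have h2 : (Set.range fun l : Fin (Fintype.card S) => ((eS.symm l : S) : W.H X)) = S := by
    ext x
    constructor
    · rintro ⟨l, rfl⟩
      exact (eS.symm l).2
    · intro hx
      exact ⟨eS ⟨x, hx⟩, by simp⟩
  refine ⟨Fintype.card S, fun l => (eS.symm l : S), fun l => hSA (eS.symm l).2, ?_, ?_⟩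
  · exact hSli.comp _ eS.symm.injective
  · intro x hx
    rw [h2, hSspan]
    exact Submodule.subset_span hx

end Pool.Agent.Hx88.AH
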